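import Pool.Agent.Q41.Walk.Level

/-!
# The level of generalized cospectral mates and the last two invariant factors

For a controllable graph `G` on `n` vertices, `L(G)^2` divides `d_(n-1) * d_n`, where
`d_1 ∣ ... ∣ d_n` are the invariant factors of the walk matrix.
-/

open Matrix

namespace Pool.Agent.Results.MP_e39433_co.LevelSquare

/-- The walk matrix `W(G) = [e, Ae, ..., A^(n-1) e]` of a graph `G` on `n` vertices. -/
def walkMatrix {n : ℕ} (G : SimpleGraph (Fin n)) [DecidableRel G.Adj] :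
    Matrix (Fin n) (Fin n) ℤ :=
  Matrix.of fun i j => ((G.adjMatrix ℤ ^ (j : ℕ)) *ᵥ 1) i

/-- The set `𝒬(G)` of rational orthogonal matrices `Q` with `Qe = e` for which `Qᵀ A Q` is a
`(0,1)`-matrix. -/
def regOrth {n : ℕ} (G : SimpleGraph (Fin n)) [DecidableRel G.Adj] :
    Set (Matrix (Fin n) (Fin n) ℚ) :=
  {Q | Q * Qᵀ = 1 ∧ Q *ᵥ 1 = 1 ∧
    ∀ i j, (Qᵀ * G.adjMatrix ℚ * Q) i j = 0 ∨ (Qᵀ * G.adjMatrix ℚ * Q) i j = 1}

/-- The level of a rational matrix: the least positive integer `k` with `kQ` integral. -/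
noncomputable def level {n : ℕ} (Q : Matrix (Fin n) (Fin n) ℚ) : ℕ :=
  sInf {k : ℕ | 0 < k ∧ ∀ i j, ∃ z : ℤ, (k : ℚ) * Q i j = z}

/-- `L(G)`: the least positive common multiple of the levels of the members of `𝒬(G)`. -/
noncomputable def lcmLevel {n : ℕ} (G : SimpleGraph (Fin n)) [DecidableRel G.Adj] : ℕ :=
  sInf {m : ℕ | 0 < m ∧ ∀ Q ∈ regOrth G, level Q ∣ m}

/-- `diag(d_1, ..., d_n)` with `d_1 ∣ d_2 ∣ ... ∣ d_n` is the Smith normal form of `W` over `ℤ`. -/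
def IsSmithForm {n : ℕ} (W : Matrix (Fin n) (Fin n) ℤ) (d : Fin n → ℕ) : Prop :=
  (∀ i j, i ≤ j → d i ∣ d j) ∧ ∃ U V : Matrix (Fin n) (Fin n) ℤ, IsUnit U.det ∧ IsUnit V.det ∧
    U * W * V = Matrix.diagonal fun i => (d i : ℤ)

theorem level_exists {n : ℕ} (Q : Matrix (Fin n) (Fin n) ℚ) :
    {k : ℕ | 0 < k ∧ ∀ i j, ∃ z : ℤ, (k : ℚ) * Q i j = z}.Nonempty := by
  refine ⟨∏ i, ∏ j, (Q i j).den, Finset.prod_pos fun i _ => Finset.prod_pos fun j _ => (Q i j).den_pos,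
    fun i j => ?_⟩
  obtain ⟨t, ht⟩ : (Q i j).den ∣ ∏ i, ∏ j, (Q i j).den :=
    (Finset.dvd_prod_of_mem (fun j => (Q i j).den) (Finset.mem_univ j)).trans
      (Finset.dvd_prod_of_mem (fun i => ∏ j, (Q i j).den) (Finset.mem_univ i))
  refine ⟨t * (Q i j).num, ?_⟩
  have h3 : ((Q i j).num : ℚ) = Q i j * (Q i j).den := (Rat.mul_den_eq_num _).symm
  rw [ht]
  push_cast
  rw [h3]
  ring

theorem level_dvd {n : ℕ} (Q : Matrix (Fin n) (Fin n) ℚ) (m : ℕ)
    (h : ∀ i j, ∃ z : ℤ, (m : ℚ) * Q i j = z) : level Q ∣ m := by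
  obtain ⟨h0, h1⟩ := Nat.sInf_mem (level_exists Q)
  change 0 < level Q at h0
  change ∀ i j, ∃ z : ℤ, ((level Q : ℕ) : ℚ) * Q i j = z at h1
  by_contra hcon
  have hr : 0 < m % level Q := Nat.pos_of_ne_zero fun h2 => hcon (Nat.dvd_of_mod_eq_zero h2)
  have hlt : m % level Q < level Q := Nat.mod_lt _ h0
  refine Nat.notMem_of_lt_sInf hlt ⟨hr, fun i j => ?_⟩
  obtain ⟨z, hz⟩ := h i j
  obtain ⟨w, hw⟩ := h1 i j
  obtain ⟨q, hq⟩ : ∃ q : ℕ, m % level Q + level Q * q = m := ⟨_, Nat.mod_add_div m (level Q)⟩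
  refine ⟨z - (q : ℤ) * w, ?_⟩
  have h2 : ((m % level Q : ℕ) : ℚ) = m - (level Q : ℕ) * (q : ℚ) := by
    have h3 : ((m % level Q : ℕ) : ℚ) + (level Q : ℕ) * (q : ℚ) = m := by
      exact_mod_cast hq
    linarith
  rw [h2, sub_mul, hz, Int.cast_sub, Int.cast_mul, ← hw, Int.cast_natCast]
  ring

/-- **Theorem.** Let `G` be a controllable graph on `n ≥ 2` vertices and let
`d_1 ∣ d_2 ∣ ... ∣ d_n` be the invariant factors of `W(G)`. Then the levels of the members of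
`𝒬(G)` have a common multiple (so `L(G)` is a positive integer divisible by all of them),
`L(G)^2` divides `d_(n-1) * d_n`, and for every prime `p` (odd or not)
`2 v_p(L(G)) ≤ v_p(d_n) + v_p(d_(n-1))`. -/
theorem result {n : ℕ} (hn : 2 ≤ n) (G : SimpleGraph (Fin n)) [DecidableRel G.Adj]
    (hG : (walkMatrix G).det ≠ 0) (d : Fin n → ℕ) (hd : IsSmithForm (walkMatrix G) d) :
    0 < lcmLevel G ∧ (∀ Q ∈ regOrth G, level Q ∣ lcmLevel G) ∧
    lcmLevel G ^ 2 ∣ d ⟨n - 2, by omega⟩ * d ⟨n - 1, by omega⟩ ∧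
    ∀ p : ℕ, p.Prime → 2 * padicValNat p (lcmLevel G) ≤
      padicValNat p (d ⟨n - 1, by omega⟩) + padicValNat p (d ⟨n - 2, by omega⟩) := by
  obtain ⟨hdvd, U, V, hU, hV, hUV⟩ := hd
  set a : Fin n := ⟨n - 2, by omega⟩ with ha
  set b : Fin n := ⟨n - 1, by omega⟩ with hb
  have hpos : ∀ i, 0 < d i := by
    intro i
    by_contra h0
    have h1 : d i = 0 := by omega
    have h2 := congrArg Matrix.det hUV
    rw [Matrix.det_mul, Matrix.det_mul, Matrix.det_diagonal,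
      Finset.prod_eq_zero (Finset.mem_univ i) (by rw [h1]; rfl)] at h2
    have h3 : U.det ≠ 0 := hU.ne_zero
    have h4 : V.det ≠ 0 := hV.ne_zero
    exact mul_ne_zero (mul_ne_zero h3 hG) h4 h2
  obtain ⟨m, f, hm, hf, hfm, hsq⟩ :
      ∃ m f : ℕ, 0 < m ∧ 0 < f ∧ m ^ 2 * f = d a * d b ∧ Squarefree f := by
    obtain ⟨f, m, hf, hm, h1, h2⟩ := Nat.sq_mul_squarefree_of_pos (Nat.mul_pos (hpos a) (hpos b))
    exact ⟨m, f, hm, hf, h1, h2⟩
  have hlev : ∀ Q ∈ regOrth G, level Q ∣ m := by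
    rintro Q ⟨hQ1, hQe, hQA⟩
    have hQ2 : Qᵀ * Q = 1 := mul_eq_one_comm.1 hQ1
    set B : Matrix (Fin n) (Fin n) ℤ :=
      Matrix.of fun i j => if (Qᵀ * G.adjMatrix ℚ * Q) i j = 1 then 1 else 0 with hB
    have hA : (G.adjMatrix ℤ).map (Int.cast : ℤ → ℚ) = G.adjMatrix ℚ := by
      ext i j
      simp [SimpleGraph.adjMatrix_apply, apply_ite]
    have hAB : Qᵀ * (G.adjMatrix ℤ).map (Int.cast : ℤ → ℚ) * Q = B.map (Int.cast : ℤ → ℚ) := by
      rw [hA]
      ext i j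
      rw [hB, Matrix.map_apply, Matrix.of_apply]
      rcases hQA i j with h | h
      · rw [h]; simp
      · rw [h]; simp
    have hBs : B.IsSymm := by
      have h1 : (Qᵀ * G.adjMatrix ℚ * Q)ᵀ = Qᵀ * G.adjMatrix ℚ * Q := by
        rw [Matrix.transpose_mul, Matrix.transpose_mul, Matrix.transpose_transpose,
          SimpleGraph.transpose_adjMatrix, Matrix.mul_assoc]
      ext i j
      rw [Matrix.transpose_apply, hB, Matrix.of_apply, Matrix.of_apply]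
      have h2 : (Qᵀ * G.adjMatrix ℚ * Q) j i = (Qᵀ * G.adjMatrix ℚ * Q) i j := by
        conv_rhs => rw [← h1]
        rfl
      rw [h2]
    apply level_dvd
    intro i j
    obtain ⟨z, hz⟩ := Q41.Walk.entry (G.adjMatrix ℤ) B Q hBs hQ1 hQ2 hQe hAB hG U V hU d hUV a b
      (hpos b) (fun l hl => hdvd l a (by
        have h1 : (l : ℕ) ≠ n - 1 := fun h => hl (Fin.ext h)
        have h2 := l.2
        rw [Fin.le_def]
        simp only [ha]
        omega)) (hdvd a b (by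
        rw [Fin.le_def]
        simp only [ha, hb]
        omega)) i j
    refine Q41.Walk.int_mul_of_sq hm hsq hfm (Q i j) z ?_
    rw [← hz]
    push_cast
    ring
  have hne : {m : ℕ | 0 < m ∧ ∀ Q ∈ regOrth G, level Q ∣ m}.Nonempty := ⟨m, hm, hlev⟩
  obtain ⟨h0, h1⟩ := Nat.sInf_mem hne
  change 0 < lcmLevel G at h0
  change ∀ Q ∈ regOrth G, level Q ∣ lcmLevel G at h1
  have hLm : lcmLevel G ∣ m := by
    by_contra hcon
    have hr : 0 < m % lcmLevel G :=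
      Nat.pos_of_ne_zero fun h2 => hcon (Nat.dvd_of_mod_eq_zero h2)
    have hlt : m % lcmLevel G < lcmLevel G := Nat.mod_lt _ h0
    exact Nat.notMem_of_lt_sInf hlt ⟨hr, fun Q hQ => (Nat.dvd_mod_iff (h1 Q hQ)).2 (hlev Q hQ)⟩
  have hdiv : lcmLevel G ^ 2 ∣ d a * d b := by
    rw [← hfm]
    exact (pow_dvd_pow_of_dvd hLm 2).mul_right f
  refine ⟨h0, h1, hdiv, fun p hp => ?_⟩
  have : Fact p.Prime := ⟨hp⟩
  have h2 : padicValNat p (lcmLevel G ^ 2) ≤ padicValNat p (d a * d b) :=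
    padicValNat_dvd_iff_le (Nat.mul_pos (hpos a) (hpos b)).ne' |>.1
      (pow_padicValNat_dvd.trans hdiv)
  rw [padicValNat.pow, padicValNat.mul (hpos a).ne' (hpos b).ne'] at h2
  omega

end Pool.Agent.Results.MP_e39433_co.LevelSquare
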